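import Pool.Agent.Q27.TrP.Uni

/-!
# Trace polynomials of words in two matrices of `SL(2, ℂ)`
-/

set_option autoImplicit false

namespace Q27.TrP

open Matrix

/-- `SL(2, ℂ)`. -/
abbrev SL2 := Matrix.SpecialLinearGroup (Fin 2) ℂ

/-- Complex `2 × 2` matrices. -/
abbrev M2 := Matrix (Fin 2) (Fin 2) ℂ

/-- The value of a letter; `(0, true) = a`, `(0, false) = a⁻¹`, `(1, true) = b`,
`(1, false) = b⁻¹`. -/
noncomputable def letter (A B : SL2) (l : Fin 2 × Bool) : SL2 :=
  if l.1 = 0 then (if l.2 then A else A⁻¹) else (if l.2 then B else B⁻¹)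

/-- The value of a word. -/
noncomputable def ev (A B : SL2) (w : List (Fin 2 × Bool)) : SL2 := (w.map (letter A B)).prod

/-- The coordinates `(tr A, tr B, tr AB)`. -/
noncomputable def coord (A B : SL2) : Fin 3 → ℂ := ![A.1.trace, B.1.trace, (A * B).1.trace]

/-- `f` is the trace polynomial of `w`. -/
def IsTrace (w : List (Fin 2 × Bool)) (f : MvPolynomial (Fin 3) ℤ) : Prop :=
  ∀ A B : SL2, (ev A B w).1.trace = MvPolynomial.aeval (coord A B) f

/-! ### Identities for `2 × 2` matrices -/

theorem det_eq (A : SL2) : A.1 0 0 * A.1 1 1 - A.1 0 1 * A.1 1 0 = 1 := by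
  have := A.2
  rwa [Matrix.det_fin_two] at this

theorem sq_eq (A : SL2) : A.1 * A.1 = A.1.trace • A.1 - 1 := by
  have h := det_eq A
  ext i j
  fin_cases i <;> fin_cases j <;>
    simp [Matrix.mul_apply, Fin.sum_univ_two, Matrix.trace_fin_two] <;>
    first
      | linear_combination (-1 : ℂ) * h
      | ring

theorem ba_eq (A B : M2) : B * A = B.trace • A + A.trace • B +
    ((A * B).trace - A.trace * B.trace) • (1 : M2) - A * B := by
  ext i j
  fin_cases i <;> fin_cases j <;>
    simp [Matrix.mul_apply, Fin.sum_univ_two, Matrix.trace_fin_two] <;> ring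

theorem inv_eq' (A : SL2) : (A⁻¹ : SL2).1 = A.1.trace • (1 : M2) - A.1 := by
  ext i j
  rw [Matrix.SpecialLinearGroup.SL2_inv_expl]
  fin_cases i <;> fin_cases j <;> simp [Matrix.trace_fin_two]

theorem trace_one' : (1 : M2).trace = 2 := by
  simp

/-! ### Existence -/

open MvPolynomial in
/-- Left multiplication by `A`. -/
noncomputable def LA (p : Fin 4 → MvPolynomial (Fin 3) ℤ) : Fin 4 → MvPolynomial (Fin 3) ℤ :=
  ![-p 1, p 0 + X 0 * p 1, -p 3, p 2 + X 0 * p 3]

open MvPolynomial in
/-- Left multiplication by `B`. -/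
noncomputable def LB (p : Fin 4 → MvPolynomial (Fin 3) ℤ) : Fin 4 → MvPolynomial (Fin 3) ℤ :=
  ![X 2 * p 1 - X 0 * (X 1 * p 1) - p 2 - X 0 * p 3, X 1 * p 1 + p 3,
    p 0 + X 0 * p 1 + X 1 * p 2 + X 2 * p 3, -p 1]

/-- The matrix with the given coordinates. -/
noncomputable def val (A B : SL2) (p : Fin 4 → MvPolynomial (Fin 3) ℤ) : M2 :=
  MvPolynomial.aeval (coord A B) (p 0) • (1 : M2) + MvPolynomial.aeval (coord A B) (p 1) • A.1 +
    MvPolynomial.aeval (coord A B) (p 2) • B.1 +
    MvPolynomial.aeval (coord A B) (p 3) • (A.1 * B.1)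

theorem val_LA (A B : SL2) (p : Fin 4 → MvPolynomial (Fin 3) ℤ) :
    val A B (LA p) = A.1 * val A B p := by
  unfold val
  simp only [LA, Matrix.cons_val_zero, Matrix.cons_val_one, Matrix.cons_val, map_add, map_neg,
    map_mul, MvPolynomial.aeval_X]
  have c0 : coord A B 0 = A.1.trace := rfl
  have c1 : coord A B 1 = B.1.trace := rfl
  have c2 : coord A B 2 = (A.1 * B.1).trace := rfl
  generalize MvPolynomial.aeval (coord A B) (p 0) = p0
  generalize MvPolynomial.aeval (coord A B) (p 1) = p1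
  generalize MvPolynomial.aeval (coord A B) (p 2) = p2
  generalize MvPolynomial.aeval (coord A B) (p 3) = p3
  try rw [c0]
  try rw [c1]
  try rw [c2]
  have h2 : A.1 * (A.1 * B.1) = A.1.trace • (A.1 * B.1) - B.1 := by
    rw [← mul_assoc, sq_eq, sub_mul, smul_mul_assoc, one_mul]
  rw [mul_add, mul_add, mul_add, mul_smul_comm, mul_smul_comm, mul_smul_comm, mul_smul_comm,
    mul_one, sq_eq, h2]
  module

theorem val_LB (A B : SL2) (p : Fin 4 → MvPolynomial (Fin 3) ℤ) :
    val A B (LB p) = B.1 * val A B p := by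
  unfold val
  simp only [LB, Matrix.cons_val_zero, Matrix.cons_val_one, Matrix.cons_val, map_add, map_neg,
    map_sub, map_mul, MvPolynomial.aeval_X]
  have c0 : coord A B 0 = A.1.trace := rfl
  have c1 : coord A B 1 = B.1.trace := rfl
  have c2 : coord A B 2 = (A.1 * B.1).trace := rfl
  generalize MvPolynomial.aeval (coord A B) (p 0) = p0
  generalize MvPolynomial.aeval (coord A B) (p 1) = p1
  generalize MvPolynomial.aeval (coord A B) (p 2) = p2
  generalize MvPolynomial.aeval (coord A B) (p 3) = p3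
  try rw [c0]
  try rw [c1]
  try rw [c2]
  have h1 := ba_eq A.1 B.1
  have h2 : B.1 * (A.1 * B.1) = A.1 + (A.1 * B.1).trace • B.1 - A.1.trace • (1 : M2) := by
    rw [← mul_assoc, h1, sub_mul, add_mul, add_mul, mul_assoc, sq_eq B, mul_sub, mul_smul_comm,
      mul_one, smul_mul_assoc, smul_mul_assoc, smul_mul_assoc, one_mul, sq_eq B]
    module
  rw [mul_add, mul_add, mul_add, mul_smul_comm, mul_smul_comm, mul_smul_comm, mul_smul_comm,
    mul_one, sq_eq, h2, h1]
  module

theorem val_sub (A B : SL2) (p p' : Fin 4 → MvPolynomial (Fin 3) ℤ) (i : Fin 3) :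
    val A B (fun j => MvPolynomial.X i * p j - p' j) =
      coord A B i • val A B p - val A B p' := by
  unfold val
  simp only [map_sub, map_mul, MvPolynomial.aeval_X]
  module

/-- All exponents are at most `k`. -/
def Dg (k : ℕ) (p : MvPolynomial (Fin 3) ℤ) : Prop := ∀ i, p.degreeOf i ≤ k

theorem Dg.mono {k l : ℕ} {p : MvPolynomial (Fin 3) ℤ} (h : Dg k p) (hkl : k ≤ l) : Dg l p :=
  fun i => (h i).trans hkl

theorem Dg.add {k : ℕ} {p q : MvPolynomial (Fin 3) ℤ} (hp : Dg k p) (hq : Dg k q) :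
    Dg k (p + q) := fun i => (MvPolynomial.degreeOf_add_le i p q).trans (max_le (hp i) (hq i))

theorem Dg.neg {k : ℕ} {p : MvPolynomial (Fin 3) ℤ} (hp : Dg k p) : Dg k (-p) := by
  intro i
  rw [MvPolynomial.degreeOf_neg]
  exact hp i

theorem Dg.sub {k : ℕ} {p q : MvPolynomial (Fin 3) ℤ} (hp : Dg k p) (hq : Dg k q) :
    Dg k (p - q) := by
  rw [sub_eq_add_neg]
  exact hp.add hq.neg

theorem Dg.mulX {k : ℕ} {p : MvPolynomial (Fin 3) ℤ} (hp : Dg k p) (j : Fin 3) :
    Dg (k + 1) (MvPolynomial.X j * p) := by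
  intro i
  refine (MvPolynomial.degreeOf_mul_le i _ _).trans ?_
  have h1 := hp i
  have h2 : MvPolynomial.degreeOf i (MvPolynomial.X j : MvPolynomial (Fin 3) ℤ) ≤ 1 := by
    rw [MvPolynomial.degreeOf_X]
    split_ifs <;> omega
  omega

theorem Dg.mulXX {k : ℕ} {p : MvPolynomial (Fin 3) ℤ} (hp : Dg k p) :
    Dg (k + 1) (MvPolynomial.X 0 * (MvPolynomial.X 1 * p)) := by
  intro i
  refine (MvPolynomial.degreeOf_mul_le i _ _).trans ?_
  have h3 := MvPolynomial.degreeOf_mul_le i (MvPolynomial.X 1 : MvPolynomial (Fin 3) ℤ) p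
  have h1 := hp i
  rw [MvPolynomial.degreeOf_X] at h3 ⊢
  by_cases h : i = 0
  · subst h
    rw [if_neg (by decide)] at h3
    rw [if_pos rfl]
    omega
  · rw [if_neg h]
    split_ifs at h3 <;> omega

theorem exists_rep (w : List (Fin 2 × Bool)) : ∃ p : Fin 4 → MvPolynomial (Fin 3) ℤ,
    (∀ A B : SL2, (ev A B w).1 = val A B p) ∧ ∀ j, Dg w.length (p j) := by
  induction w with
  | nil =>
    refine ⟨![1, 0, 0, 0], fun A B => ?_, ?_⟩
    · unfold ev val
      simp
    · intro j i
      fin_cases j <;> simp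
  | cons l w ih =>
    obtain ⟨p, hp, hd⟩ := ih
    have hd' : ∀ j, Dg (w.length + 1) (p j) := fun j => (hd j).mono (Nat.le_succ _)
    have hev : ∀ A B : SL2, (ev A B (l :: w)).1 = (letter A B l).1 * val A B p := by
      intro A B
      rw [← hp A B]
      unfold ev
      rw [List.map_cons, List.prod_cons]
      rfl
    have dLA : ∀ j, Dg (w.length + 1) (LA p j) := by
      intro j
      fin_cases j
      · exact (hd' 1).neg
      · exact (hd' 0).add ((hd 1).mulX 0)
      · exact (hd' 3).neg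
      · exact (hd' 2).add ((hd 3).mulX 0)
    have dLB : ∀ j, Dg (w.length + 1) (LB p j) := by
      intro j
      fin_cases j
      · exact ((((hd 1).mulX 2).sub (hd 1).mulXX).sub (hd' 2)).sub ((hd 3).mulX 0)
      · exact ((hd 1).mulX 1).add (hd' 3)
      · exact (((hd' 0).add ((hd 1).mulX 0)).add ((hd 2).mulX 1)).add ((hd 3).mulX 2)
      · exact (hd' 1).neg
    obtain ⟨i, s⟩ := l
    rw [List.length_cons]
    by_cases hi : i = 0
    · cases s with
      | true =>
        refine ⟨LA p, fun A B => ?_, dLA⟩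
        rw [hev, val_LA]
        simp [letter, hi]
      | false =>
        refine ⟨fun j => MvPolynomial.X 0 * p j - LA p j, fun A B => ?_,
          fun j => ((hd j).mulX 0).sub (dLA j)⟩
        rw [hev, val_sub, val_LA]
        have e : letter A B (i, false) = A⁻¹ := by simp [letter, hi]
        rw [e, inv_eq', sub_mul, smul_mul_assoc, one_mul]
        rfl
    · cases s with
      | true =>
        refine ⟨LB p, fun A B => ?_, dLB⟩
        rw [hev, val_LB]
        simp [letter, hi]
      | false =>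
        refine ⟨fun j => MvPolynomial.X 1 * p j - LB p j, fun A B => ?_,
          fun j => ((hd j).mulX 1).sub (dLB j)⟩
        rw [hev, val_sub, val_LB]
        have e : letter A B (i, false) = B⁻¹ := by simp [letter, hi]
        rw [e, inv_eq', sub_mul, smul_mul_assoc, one_mul]
        rfl

theorem exists_trace (w : List (Fin 2 × Bool)) : ∃ f, IsTrace w f ∧ Dg (w.length + 1) f := by
  obtain ⟨p, hp, hd⟩ := exists_rep w
  have hd' : ∀ j, Dg (w.length + 1) (p j) := fun j => (hd j).mono (Nat.le_succ _)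
  refine ⟨(p 0 + p 0) + MvPolynomial.X 0 * p 1 + MvPolynomial.X 1 * p 2 +
    MvPolynomial.X 2 * p 3, fun A B => ?_, ?_⟩
  · rw [hp A B]
    unfold val
    rw [Matrix.trace_add, Matrix.trace_add, Matrix.trace_add, Matrix.trace_smul,
      Matrix.trace_smul, Matrix.trace_smul, Matrix.trace_smul, trace_one']
    simp only [map_add, map_mul, MvPolynomial.aeval_X, smul_eq_mul]
    have e0 : coord A B 0 = A.1.trace := rfl
    have e1 : coord A B 1 = B.1.trace := rfl
    have e2 : coord A B 2 = (A.1 * B.1).trace := rfl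
    rw [e0, e1, e2]
    ring
  · exact ((((hd' 0).add (hd' 0)).add ((hd 1).mulX 0)).add ((hd 2).mulX 1)).add ((hd 3).mulX 2)

/-! ### Uniqueness -/

theorem exists_matrices (x : Fin 3 → ℂ) : ∃ A B : SL2, coord A B = x := by
  -- a nonzero root of `u² - z u + 1`
  obtain ⟨u, hu⟩ : ∃ u : ℂ, u * u - x 2 * u + 1 = 0 := by
    obtain ⟨v, hv⟩ := IsAlgClosed.exists_pow_nat_eq (x 2 ^ 2 - 4) (n := 2) (by norm_num)
    refine ⟨(x 2 + v) / 2, ?_⟩
    linear_combination (1 / 4 : ℂ) * hv
  have hu0 : u ≠ 0 := by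
    rintro rfl
    simp at hu
  refine ⟨⟨!![x 0, -1; 1, 0], by rw [Matrix.det_fin_two_of]; ring⟩,
    ⟨!![0, u; -u⁻¹, x 1], by rw [Matrix.det_fin_two_of]; field_simp; ring⟩, ?_⟩
  funext i
  fin_cases i
  · simp [coord, Matrix.trace_fin_two]
  · simp [coord, Matrix.trace_fin_two]
  · change (!![x 0, -1; 1, 0] * !![0, u; -u⁻¹, x 1] : M2).trace = x 2
    rw [Matrix.trace_fin_two, Matrix.mul_apply, Matrix.mul_apply, Fin.sum_univ_two,
      Fin.sum_univ_two]
    simp
    field_simp
    linear_combination hu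

theorem trace_unique {w : List (Fin 2 × Bool)} {f g : MvPolynomial (Fin 3) ℤ}
    (hf : IsTrace w f) (hg : IsTrace w g) : f = g := by
  apply MvPolynomial.map_injective (Int.castRingHom ℂ) Int.cast_injective
  apply MvPolynomial.funext
  intro x
  obtain ⟨A, B, rfl⟩ := exists_matrices x
  have h1 := hf A B
  rw [hg A B] at h1
  rw [MvPolynomial.eval_map, MvPolynomial.eval_map]
  exact h1.symm

theorem card_support_le {k : ℕ} {f : MvPolynomial (Fin 3) ℤ} (hf : Dg k f) :
    f.support.card ≤ (k + 1) ^ 3 := by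
  classical
  have h1 : f.support.card ≤ (Finset.univ : Finset (Fin 3 → Fin (k + 1))).card := by
    apply Finset.card_le_card_of_injOn (fun s i => (⟨min (s i) k, by omega⟩ : Fin (k + 1)))
    · intro s _
      exact Finset.mem_coe.2 (Finset.mem_univ _)
    · intro s hs t ht hst
      ext i
      have h2 := congrFun hst i
      have h3 : s i ≤ k := (MvPolynomial.monomial_le_degreeOf i hs).trans (hf i)
      have h4 : t i ≤ k := (MvPolynomial.monomial_le_degreeOf i ht).trans (hf i)
      have h5 := congrArg Fin.val h2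
      simp only at h5
      omega
  rw [Finset.card_univ, Fintype.card_fun, Fintype.card_fin, Fintype.card_fin] at h1
  exact h1

end Q27.TrP
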