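import Mathlib

/-!
# Chebyshev-type polynomials and products of polynomials in separate variables
-/

set_option autoImplicit false

namespace Q27.TrP

open Polynomial

/-- `U_0 = 1`, `U_1 = X`, `U_{n+2} = X U_{n+1} - U_n`. -/
noncomputable def U : ℕ → ℤ[X]
  | 0 => 1
  | 1 => X
  | n + 2 => X * U (n + 1) - U n

theorem U_add_two (n : ℕ) : U (n + 2) = X * U (n + 1) - U n := rfl

theorem U_coeff_zero (n : ℕ) : (U (n + 2)).coeff 0 = -(U n).coeff 0 := by
  rw [U_add_two, coeff_sub, coeff_X_mul_zero, zero_sub]

theorem U_coeff_succ (n a : ℕ) :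
    (U (n + 2)).coeff (a + 1) = (U (n + 1)).coeff a - (U n).coeff (a + 1) := by
  rw [U_add_two, coeff_sub, coeff_X_mul]

theorem U_coeff_gt : ∀ n a : ℕ, n < a → (U n).coeff a = 0
  | 0, a, h => by
    change (1 : ℤ[X]).coeff a = 0
    rw [coeff_one, if_neg (by omega)]
  | 1, a, h => by
    change (X : ℤ[X]).coeff a = 0
    rw [coeff_X, if_neg (by omega)]
  | n + 2, a, h => by
    obtain ⟨a, rfl⟩ : ∃ b, a = b + 1 := ⟨a - 1, by omega⟩
    rw [U_coeff_succ, U_coeff_gt (n + 1) a (by omega), U_coeff_gt n (a + 1) (by omega), sub_zero]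

theorem U_coeff_odd : ∀ n a m : ℕ, n = a + 2 * m + 1 → (U n).coeff a = 0
  | 0, a, m, h => by omega
  | 1, a, m, h => by
    change (X : ℤ[X]).coeff a = 0
    rw [coeff_X, if_neg (by omega)]
  | n + 2, a, m, h => by
    cases a with
    | zero =>
      rw [U_coeff_zero]
      cases m with
      | zero => omega
      | succ m => rw [U_coeff_odd n 0 m (by omega), neg_zero]
    | succ a =>
      rw [U_coeff_succ, U_coeff_odd (n + 1) a m (by omega), zero_sub, neg_eq_zero]
      cases m with
      | zero => exact U_coeff_gt n (a + 1) (by omega)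
      | succ m => exact U_coeff_odd n (a + 1) m (by omega)

theorem U_coeff_even : ∀ n a m : ℕ, n = a + 2 * m →
    (U n).coeff a = (-1) ^ m * ((a + m).choose m : ℤ)
  | 0, a, m, h => by
    obtain rfl : a = 0 := by omega
    obtain rfl : m = 0 := by omega
    change (1 : ℤ[X]).coeff 0 = _
    rw [coeff_one, if_pos rfl]
    simp
  | 1, a, m, h => by
    obtain rfl : m = 0 := by omega
    obtain rfl : a = 1 := by omega
    change (X : ℤ[X]).coeff 1 = _
    rw [coeff_X, if_pos rfl]
    simp
  | n + 2, a, m, h => by
    cases a with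
    | zero =>
      cases m with
      | zero => omega
      | succ m =>
        rw [U_coeff_zero, U_coeff_even n 0 m (by omega), zero_add, zero_add, Nat.choose_self,
          Nat.choose_self, pow_succ]
        ring
    | succ a =>
      rw [U_coeff_succ, U_coeff_even (n + 1) a m (by omega)]
      cases m with
      | zero =>
        rw [U_coeff_gt n (a + 1) (by omega)]
        simp
      | succ m =>
        rw [U_coeff_even n (a + 1) m (by omega)]
        have e1 : a + 1 + (m + 1) = (a + (m + 1)) + 1 := by ring
        have e2 : a + 1 + m = a + (m + 1) := by ring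
        rw [e1, e2, Nat.choose_succ_succ, pow_succ]
        push_cast
        ring

theorem U_pos {n a m : ℕ} (h : n = a + 2 * m) : ∃ g : ℤ, 0 < g ∧ (U n).coeff a = (-1) ^ m * g := by
  refine ⟨((a + m).choose m : ℤ), ?_, U_coeff_even n a m h⟩
  exact_mod_cast Nat.choose_pos (Nat.le_add_left m a)

theorem U_shift {n a m : ℕ} (h : n + 2 = a + 2 * m) :
    ∃ g : ℤ, 0 ≤ g ∧ (U n).coeff a = -((-1) ^ m * g) := by
  cases m with
  | zero => exact ⟨0, le_rfl, by rw [U_coeff_gt n a (by omega)]; simp⟩
  | succ m =>
    obtain ⟨g, hg, h1⟩ := U_pos (n := n) (a := a) (m := m) (by omega)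
    exact ⟨g, hg.le, by rw [h1, pow_succ]; ring⟩

/-! ### Products -/

/-- The polynomial `p(x) q(y) r(z)`. -/
noncomputable def pr (p q r : ℤ[X]) : MvPolynomial (Fin 3) ℤ :=
  aeval (MvPolynomial.X 0) p * aeval (MvPolynomial.X 1) q * aeval (MvPolynomial.X 2) r

theorem pr_add1 (p p' q r : ℤ[X]) : pr (p + p') q r = pr p q r + pr p' q r := by
  unfold pr; rw [map_add]; ring
theorem pr_add2 (p q q' r : ℤ[X]) : pr p (q + q') r = pr p q r + pr p q' r := by
  unfold pr; rw [map_add]; ring
theorem pr_add3 (p q r r' : ℤ[X]) : pr p q (r + r') = pr p q r + pr p q r' := by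
  unfold pr; rw [map_add]; ring

theorem pr_coeff (p q r : ℤ[X]) (s : Fin 3 →₀ ℕ) :
    (pr p q r).coeff s = p.coeff (s 0) * q.coeff (s 1) * r.coeff (s 2) := by
  classical
  induction p using Polynomial.induction_on' with
  | add p p' h h' => rw [pr_add1, MvPolynomial.coeff_add, h, h', coeff_add]; ring
  | monomial i u =>
  induction q using Polynomial.induction_on' with
  | add q q' h h' => rw [pr_add2, MvPolynomial.coeff_add, h, h', coeff_add]; ring
  | monomial j v =>
  induction r using Polynomial.induction_on' with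
  | add r r' h h' => rw [pr_add3, MvPolynomial.coeff_add, h, h', coeff_add]; ring
  | monomial k w =>
    have e : pr (monomial i u) (monomial j v) (monomial k w) =
        MvPolynomial.monomial (Finsupp.single 0 i + Finsupp.single 1 j + Finsupp.single 2 k)
          (u * v * w) := by
      unfold pr
      simp only [← C_mul_X_pow_eq_monomial, map_mul, map_pow, aeval_X, aeval_C]
      rw [MvPolynomial.monomial_add_single, MvPolynomial.monomial_add_single,
        ← zero_add (Finsupp.single (0 : Fin 3) i), MvPolynomial.monomial_add_single]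
      simp only [MvPolynomial.algebraMap_eq]
      rw [← MvPolynomial.C_apply, MvPolynomial.C_mul, MvPolynomial.C_mul]
      ring
    rw [e, MvPolynomial.coeff_monomial, coeff_monomial, coeff_monomial, coeff_monomial]
    have e2 : (Finsupp.single 0 i + Finsupp.single 1 j + Finsupp.single 2 k = s) ↔
        (i = s 0 ∧ j = s 1 ∧ k = s 2) := by
      constructor
      · rintro rfl
        simp [Finsupp.single_apply]
      · rintro ⟨h0, h1, h2⟩
        ext t
        fin_cases t
        · simp [Finsupp.single_apply, h0]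
        · simp [Finsupp.single_apply, h1]
        · simp [Finsupp.single_apply, h2]
    by_cases h : i = s 0 ∧ j = s 1 ∧ k = s 2
    · rw [if_pos (e2.2 h), if_pos h.1, if_pos h.2.1, if_pos h.2.2]
    · rw [if_neg (fun hh => h (e2.1 hh))]
      by_cases h0 : i = s 0
      · by_cases h1 : j = s 1
        · have h2 : ¬ k = s 2 := fun h2 => h ⟨h0, h1, h2⟩
          rw [if_neg h2, mul_zero]
        · rw [if_neg h1, mul_zero, zero_mul]
      · rw [if_neg h0, zero_mul, zero_mul]

end Q27.TrP
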