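import Pool.Agent.Q27.TrP.Fricke

/-!
# The trace polynomial of `a^i b^j (ab)^k`
-/

set_option autoImplicit false

namespace Q27.TrP

open Matrix Polynomial

/-- The word `a^i b^j (ab)^k`. -/
def word (i j k : ℕ) : List (Fin 2 × Bool) :=
  List.replicate i (0, true) ++ (List.replicate j (1, true) ++
    (List.replicate k [((0 : Fin 2), true), (1, true)]).flatten)

theorem ev_append (A B : SL2) (w w' : List (Fin 2 × Bool)) :
    ev A B (w ++ w') = ev A B w * ev A B w' := by
  unfold ev
  rw [List.map_append, List.prod_append]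

theorem ev_word (A B : SL2) (i j k : ℕ) : ev A B (word i j k) = A ^ i * (B ^ j * (A * B) ^ k) := by
  unfold word
  rw [ev_append, ev_append]
  congr 1
  · unfold ev
    rw [List.map_replicate, List.prod_replicate]
    simp [letter]
  · congr 1
    · unfold ev
      rw [List.map_replicate, List.prod_replicate]
      simp [letter]
    · induction k with
      | zero => simp [ev]
      | succ k ih =>
        rw [List.replicate_succ, List.flatten_cons, ev_append, ih, pow_succ']
        congr 1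
        simp [ev, letter]

theorem length_word (i j k : ℕ) : (word i j k).length = i + j + 2 * k := by
  unfold word
  rw [List.length_append, List.length_append, List.length_replicate, List.length_replicate]
  have : ((List.replicate k [((0 : Fin 2), true), (1, true)]).flatten).length = 2 * k := by
    induction k with
    | zero => rfl
    | succ k ih =>
      rw [List.replicate_succ, List.flatten_cons, List.length_append, ih]
      simp
      ring
  rw [this]
  ring

theorem positive_word (i j k : ℕ) : ∀ l ∈ word i j k, l.2 = true := by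
  intro l hl
  unfold word at hl
  rw [List.mem_append, List.mem_append, List.mem_replicate, List.mem_replicate,
    List.mem_flatten] at hl
  rcases hl with ⟨-, rfl⟩ | ⟨-, rfl⟩ | ⟨l', hl', hl⟩
  · rfl
  · rfl
  · rw [List.mem_replicate] at hl'
    rw [hl'.2] at hl
    simp only [List.mem_cons, List.not_mem_nil, or_false] at hl
    rcases hl with rfl | rfl <;> rfl

theorem isCyclicallyReduced_of_positive {w : List (Fin 2 × Bool)} (h : ∀ l ∈ w, l.2 = true) :
    FreeGroup.IsCyclicallyReduced w := by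
  refine ⟨?_, ?_⟩
  · unfold FreeGroup.IsReduced
    induction w with
    | nil => exact List.isChain_nil
    | cons a w ih =>
      cases w with
      | nil => exact List.isChain_singleton a
      | cons b w =>
        rw [List.isChain_cons_cons]
        refine ⟨fun _ => ?_, ih (fun l hl => h l (List.mem_cons_of_mem _ hl))⟩
        rw [h a List.mem_cons_self, h b (List.mem_cons_of_mem _ List.mem_cons_self)]
  · intro a ha b hb _
    rw [h a (List.mem_of_mem_getLast? ha), h b (List.mem_of_mem_head? hb)]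

theorem pow_eq (A : SL2) (n : ℕ) : A.1 ^ (n + 2) =
    (aeval A.1.trace (U (n + 1)) : ℂ) • A.1 - (aeval A.1.trace (U n) : ℂ) • (1 : M2) := by
  induction n with
  | zero =>
    have e1 : U (0 + 1) = X := rfl
    have e0 : U 0 = 1 := rfl
    rw [e1, e0, aeval_X, map_one, one_smul, pow_two, sq_eq]
  | succ n ih =>
    rw [pow_succ', ih, mul_sub, mul_smul_comm, mul_smul_comm, mul_one, sq_eq, U_add_two, map_sub,
      map_mul, aeval_X]
    module

/-- The trace polynomial of `a^(a+3) b^(b+3) (ab)^(k+2)`. -/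
noncomputable def F (a b k : ℕ) : MvPolynomial (Fin 3) ℤ :=
  pr (U (a + 2)) (U (b + 2)) (X * U (k + 2)) + pr (U (a + 2)) (U b) (U (k + 1)) +
    pr (U a) (U (b + 2)) (U (k + 1)) - pr (X * U (a + 2)) (U (b + 1)) (X * U (k + 1)) -
    pr (U (a + 1)) (X * U (b + 2)) (X * U (k + 1)) + pr (X * U (a + 2)) (U (b + 1)) (U k) +
    pr (U (a + 1)) (X * U (b + 2)) (U k) + pr (U (a + 1)) (U (b + 1)) (X * U (k + 1)) -
    (pr (U (a + 1)) (U (b + 1)) (U k) + pr (U (a + 1)) (U (b + 1)) (U k))

theorem aeval_pr (c : Fin 3 → ℂ) (p q r : ℤ[X]) :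
    MvPolynomial.aeval c (pr p q r) = aeval (c 0) p * aeval (c 1) q * aeval (c 2) r := by
  unfold pr
  rw [map_mul, map_mul]
  have h : ∀ (i : Fin 3) (p : ℤ[X]), MvPolynomial.aeval c
      (aeval (MvPolynomial.X i : MvPolynomial (Fin 3) ℤ) p) = (aeval (c i) p : ℂ) := by
    intro i p
    rw [← Polynomial.aeval_algHom_apply, MvPolynomial.aeval_X]
  rw [h, h, h]

theorem isTrace_F (a b k : ℕ) : IsTrace (word (a + 3) (b + 3) (k + 2)) (F a b k) := by
  intro A B
  rw [ev_word]
  have e1 : (A ^ (a + 3) * (B ^ (b + 3) * (A * B) ^ (k + 2)) : SL2).1 =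
      A.1 ^ ((a + 1) + 2) * (B.1 ^ ((b + 1) + 2) * (A * B).1 ^ (k + 2)) := by
    simp
  rw [e1, pow_eq, pow_eq, pow_eq]
  have c0 : coord A B 0 = A.1.trace := rfl
  have c1 : coord A B 1 = B.1.trace := rfl
  have c2 : coord A B 2 = (A * B).1.trace := rfl
  unfold F
  simp only [map_add, map_sub, aeval_pr, c0, c1, c2, map_mul, aeval_X]
  have hx : (aeval A.1.trace (U (a + 2)) : ℂ) =
      A.1.trace * aeval A.1.trace (U (a + 1)) - aeval A.1.trace (U a) := by
    rw [U_add_two, map_sub, map_mul, aeval_X]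
  have hy : (aeval B.1.trace (U (b + 2)) : ℂ) =
      B.1.trace * aeval B.1.trace (U (b + 1)) - aeval B.1.trace (U b) := by
    rw [U_add_two, map_sub, map_mul, aeval_X]
  have hz : (aeval (A * B).1.trace (U (k + 2)) : ℂ) =
      (A * B).1.trace * aeval (A * B).1.trace (U (k + 1)) - aeval (A * B).1.trace (U k) := by
    rw [U_add_two, map_sub, map_mul, aeval_X]
  have e2 : a + 1 + 1 = a + 2 := rfl
  have e3 : b + 1 + 1 = b + 2 := rfl
  rw [e2, e3]
  have eAB : (A * B).1 = A.1 * B.1 := rfl
  have t1 : (A.1 * (B.1 * (A.1 * B.1))).trace = (A * B).1.trace ^ 2 - 2 := by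
    have h := congrArg Matrix.trace (sq_eq (A * B))
    rw [Matrix.trace_sub, Matrix.trace_smul, trace_one', smul_eq_mul, eAB] at h
    rw [eAB, pow_two, ← h]
    simp only [mul_assoc]
  have t2 : (A.1 * (A.1 * B.1)).trace = A.1.trace * (A * B).1.trace - B.1.trace := by
    rw [← mul_assoc, sq_eq, sub_mul, smul_mul_assoc, one_mul, Matrix.trace_sub,
      Matrix.trace_smul, smul_eq_mul]
    rfl
  have t3 : (B.1 * (A.1 * B.1)).trace = B.1.trace * (A * B).1.trace - A.1.trace := by
    rw [Matrix.trace_mul_comm, mul_assoc, sq_eq, mul_sub, mul_smul_comm, mul_one,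
      Matrix.trace_sub, Matrix.trace_smul, smul_eq_mul]
    rfl
  have t4 : (A.1 * B.1).trace = (A * B).1.trace := rfl
  rw [hz]
  generalize (aeval A.1.trace (U (a + 2)) : ℂ) = u1 at *
  generalize (aeval A.1.trace (U (a + 1)) : ℂ) = u0 at *
  generalize (aeval A.1.trace (U a) : ℂ) = um at *
  generalize (aeval B.1.trace (U (b + 2)) : ℂ) = v1 at *
  generalize (aeval B.1.trace (U (b + 1)) : ℂ) = v0 at *
  generalize (aeval B.1.trace (U b) : ℂ) = vm at *
  generalize (aeval (A * B).1.trace (U (k + 1)) : ℂ) = w1 at *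
  generalize (aeval (A * B).1.trace (U k) : ℂ) = w0 at *
  have e5 : (u1 • A.1 - u0 • (1 : M2)) * ((v1 • B.1 - v0 • (1 : M2)) *
      (w1 • (A * B).1 - w0 • (1 : M2))) =
      (u1 * v1 * w1) • (A.1 * (B.1 * (A.1 * B.1))) - (u1 * v1 * w0) • (A.1 * B.1)
      - (u1 * v0 * w1) • (A.1 * (A.1 * B.1)) - (u0 * v1 * w1) • (B.1 * (A.1 * B.1))
      + (u1 * v0 * w0) • A.1 + (u0 * v1 * w0) • B.1 + (u0 * v0 * w1) • (A.1 * B.1)
      - (u0 * v0 * w0) • (1 : M2) := by
    rw [eAB]
    simp only [mul_sub, sub_mul, mul_smul_comm, smul_mul_assoc, mul_one, one_mul, smul_sub,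
      smul_smul]
    module
  rw [e5]
  simp only [Matrix.trace_add, Matrix.trace_sub, Matrix.trace_smul, smul_eq_mul, t1, t2, t3, t4,
    trace_one']
  linear_combination u1 * w1 * (-hy) + v1 * w1 * (-hx)

/-! ### The support -/

theorem sign_sq (m : ℕ) : ((-1 : ℤ) ^ m) * (-1) ^ m = 1 := by
  rw [← pow_add, ← two_mul, pow_mul]
  norm_num

theorem U_odd' {n a m : ℕ} (h : n + 1 = a + 2 * m) : (U n).coeff a = 0 := by
  cases m with
  | zero => exact U_coeff_gt n a (by omega)
  | succ m => exact U_coeff_odd n a m (by omega)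

theorem XU_odd {n a m : ℕ} (h : n = a + 2 * m) : (X * U n).coeff a = 0 := by
  cases a with
  | zero => rw [coeff_X_mul_zero]
  | succ a =>
    rw [coeff_X_mul]
    exact U_coeff_odd n a m (by omega)

theorem coeff_F_ne {a b k m l t : ℕ} {s : Fin 3 →₀ ℕ} (h0 : a + 2 = s 0 + 2 * m)
    (h1 : b + 2 = s 1 + 2 * l) (h2 : k + 3 = s 2 + 2 * t) (h3 : 1 ≤ s 2) :
    (F a b k).coeff s ≠ 0 := by
  obtain ⟨c, hc⟩ : ∃ c, s 2 = c + 1 := ⟨s 2 - 1, by omega⟩
  obtain ⟨g1, p1, q1⟩ := U_pos h0
  obtain ⟨g2, p2, q2⟩ := U_pos h1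
  obtain ⟨g3, p3, q3⟩ := U_pos (n := k + 2) (a := c) (m := t) (by omega)
  obtain ⟨g4, p4, q4⟩ := U_shift h0
  obtain ⟨g5, p5, q5⟩ := U_shift h1
  obtain ⟨g6, p6, q6⟩ := U_shift (n := k + 1) (a := s 2) (m := t) (by omega)
  have z1 : (X * U (a + 2)).coeff (s 0) = 0 := XU_odd h0
  have z2 : (U (a + 1)).coeff (s 0) = 0 := U_odd' (m := m) (by omega)
  have e1 : (X * U (k + 2)).coeff (s 2) = (-1) ^ t * g3 := by
    rw [hc, coeff_X_mul, q3]
  unfold F
  simp only [MvPolynomial.coeff_add, MvPolynomial.coeff_sub, pr_coeff, z1, z2, e1, q1, q2, q4, q5,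
    q6]
  have e2 : (-1 : ℤ) ^ m * g1 * ((-1) ^ l * g2) * ((-1) ^ t * g3) +
      (-1) ^ m * g1 * (-((-1) ^ l * g5)) * (-((-1) ^ t * g6)) +
      -((-1) ^ m * g4) * ((-1) ^ l * g2) * (-((-1) ^ t * g6)) =
      ((-1) ^ m * (-1) ^ l * (-1) ^ t) * (g1 * g2 * g3 + g1 * g5 * g6 + g4 * g2 * g6) := by ring
  have e3 : 0 < g1 * g2 * g3 + g1 * g5 * g6 + g4 * g2 * g6 := by positivity
  simp only [zero_mul, sub_zero, add_zero]
  rw [e2]
  apply mul_ne_zero _ e3.ne'
  exact mul_ne_zero (mul_ne_zero (pow_ne_zero _ (by norm_num)) (pow_ne_zero _ (by norm_num)))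
    (pow_ne_zero _ (by norm_num))

theorem card_support_F {a b k q : ℕ} (ha : 2 * q ≤ a + 4) (hb : 2 * q ≤ b + 4)
    (hk : 2 * q ≤ k + 4) : q ^ 3 ≤ (F a b k).support.card := by
  classical
  have h1 : (Finset.univ : Finset (Fin 3 → Fin q)).card ≤ (F a b k).support.card := by
    apply Finset.card_le_card_of_injOn (fun v => Finsupp.equivFunOnFinite.symm
      ![a + 2 - 2 * (v 0 : ℕ), b + 2 - 2 * (v 1 : ℕ), k + 3 - 2 * (v 2 : ℕ)])
    · intro v _
      have h0 := (v 0).isLt
      have h1 := (v 1).isLt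
      have h2 := (v 2).isLt
      rw [Finset.mem_coe, MvPolynomial.mem_support_iff]
      apply coeff_F_ne (m := v 0) (l := v 1) (t := v 2)
      · simp
        omega
      · simp
        omega
      · simp
        omega
      · simp
        omega
    · intro v _ w _ hvw
      have h0 := DFunLike.congr_fun hvw 0
      have h1 := DFunLike.congr_fun hvw 1
      have h2 := DFunLike.congr_fun hvw 2
      simp at h0 h1 h2
      have b0 := (v 0).isLt
      have b1 := (v 1).isLt
      have b2 := (v 2).isLt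
      have d0 := (w 0).isLt
      have d1 := (w 1).isLt
      have d2 := (w 2).isLt
      funext i
      fin_cases i
      · apply Fin.ext; simp; omega
      · apply Fin.ext; simp; omega
      · apply Fin.ext; simp; omega
  rw [Finset.card_univ, Fintype.card_fun, Fintype.card_fin, Fintype.card_fin] at h1
  exact h1

end Q27.TrP
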